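import Pool.Agent.H86.DB.Targets

/-!
# DISC: differences of functions of polynomial growth
-/

namespace Pool.Agent.H33.DB

open Pool.Agent.H86.DB

theorem pf_DISC : T_DISC := by
  intro m C a hj hC n₀
  by_contra hcon
  push Not at hcon
  have key : ∀ i ≤ m, ∃ N, ∀ t, Nat.choose t i ≤ a (m - i) (N + t) := by
    intro i
    induction i with
    | zero =>
      intro _
      refine ⟨n₀, fun t => ?_⟩
      rw [Nat.choose_zero_right, Nat.sub_zero]
      exact Nat.one_le_iff_ne_zero.2 (hcon _ (Nat.le_add_right _ _))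
    | succ i ih =>
      intro hi
      obtain ⟨N, hN⟩ := ih (by omega)
      obtain ⟨n', hn'⟩ := hj (m - (i + 1)) (by omega)
      have hs : m - (i + 1) + 1 = m - i := by omega
      rw [hs] at hn'
      refine ⟨N + n', fun t => ?_⟩
      induction t with
      | zero => simp
      | succ t iht =>
        rw [Nat.choose_succ_succ, Nat.succ_eq_add_one]
        have h1 := hn' (N + n' + t) (by omega)
        have h2 : Nat.choose t i ≤ a (m - i) (N + n' + t + 1) := by
          have h3 := hN (n' + t + 1)
          have h4 : Nat.choose t i ≤ Nat.choose (n' + t + 1) i := Nat.choose_le_choose _ (by omega)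
          rw [show N + n' + t + 1 = N + (n' + t + 1) by ring]
          exact h4.trans h3
        rw [show N + n' + (t + 1) = N + n' + t + 1 by ring]
        omega
  obtain ⟨N, hN⟩ := key m le_rfl
  rw [Nat.sub_self] at hN
  have hsum : ∀ T, Nat.choose T (m + 1) ≤ ∑ i ∈ Finset.range (N + T), a 0 i := by
    intro T
    induction T with
    | zero => simp
    | succ T ih =>
      rw [← add_assoc, Finset.sum_range_succ, Nat.choose_succ_succ, add_comm]
      exact add_le_add ih (hN T)
  obtain ⟨u, hu⟩ : ∃ u, u = (m + 1).factorial * C * 2 ^ m + N + m + 1 := ⟨_, rfl⟩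
  have h1 : (u + m + 1 - (m + 1)) ^ (m + 1) ≤ (u + m).descFactorial (m + 1) := by
    have := Nat.pow_sub_le_descFactorial (u + m) (m + 1)
    exact this
  have h2 : u ^ (m + 1) ≤ (m + 1).factorial * Nat.choose (u + m) (m + 1) := by
    rw [← Nat.descFactorial_eq_factorial_mul_choose]
    have h3 : u + m + 1 - (m + 1) = u := by omega
    rw [h3] at h1
    exact h1
  have h3 : Nat.choose (u + m) (m + 1) ≤ C * (N + (u + m)) ^ m := (hsum (u + m)).trans (hC _)
  have h4 : (N + (u + m)) ^ m ≤ (2 * u) ^ m := Nat.pow_le_pow_left (by omega) m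
  have h5 : u ^ (m + 1) ≤ (m + 1).factorial * C * 2 ^ m * u ^ m := by
    calc u ^ (m + 1) ≤ (m + 1).factorial * Nat.choose (u + m) (m + 1) := h2
      _ ≤ (m + 1).factorial * (C * (2 * u) ^ m) :=
          Nat.mul_le_mul_left _ (h3.trans (Nat.mul_le_mul_left _ h4))
      _ = (m + 1).factorial * C * 2 ^ m * u ^ m := by rw [mul_pow]; ring
  have hu0 : 0 < u ^ m := pow_pos (by omega) m
  rw [pow_succ, mul_comm] at h5
  have h6 := Nat.le_of_mul_le_mul_right h5 hu0
  omega

end Pool.Agent.H33.DB
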